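import Pool.Agent.Lib_helper41.Lat.Main

/-!
# First cohomology of irreducible lattices in products with a CAT(0) factor

Full positive answer to Q1 of MP_4d0ad4_al. The definitions used in the statement are in
`Pool.Agent.Lib_helper41.Lat.Defs`.
-/

namespace Pool.Agent.Results.MP_4d0ad4_al.IrreducibleLatticeH1

open Pool.Agent.Lat

theorem result (X : Type) [MetricSpace X] (K : PolyComplex X) (hX : IsCAT0 X)
    (hco : ActsCocompactly K.Aut) (hmin : ActsMinimally K.Aut)
    (G : Type) [Group G] [TopologicalSpace G] [IsTopologicalGroup G]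
    (hG : IsSemisimpleGroup G) (n : ℕ)
    (Γ : Subgroup (Ambient G n K)) (hΓ : IsUniformLattice Γ) (hirr : AlgIrreducible Γ)
    (hnd : ¬ DiscreteTopology (Γ.map (Ambient.proj G n K))) :
    Nonempty (GroupCohomology1 Γ ≃+ SingularCohomology1 (QuotientSpace Γ)) :=
  main X K hX hco hmin G hG n Γ hΓ hirr hnd

end Pool.Agent.Results.MP_4d0ad4_al.IrreducibleLatticeH1
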